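import Pool.Agent.Helper45.RT.Stmts3

/-!
Rows GET and COV.
-/

set_option autoImplicit false

namespace RTwo

theorem get_nil' (i : ℕ) : get [] i = 0 := rfl

theorem get_cons' (x : ℕ) (L : List ℕ) (i : ℕ) :
    get (x :: L) i = seln (Nat.ble 1024 i) (get L (i - 1024))
      (Nat.land (Nat.shiftRight x (Nat.mul 200 i))
        1606938044258990275541962092341162602522202993782792835301375) := rfl

theorem get_lt' (x : ℕ) (L : List ℕ) (i : ℕ) (h : i < 1024) :
    get (x :: L) i = x / 2 ^ (200 * i) % 2 ^ 200 := by
  have hb : Nat.ble 1024 i = false := by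
    rw [← Bool.not_eq_true, Nat.ble_eq]; omega
  rw [get_cons', hb]
  have h1 : (1606938044258990275541962092341162602522202993782792835301375 : ℕ) = 2 ^ 200 - 1 := by
    norm_num
  have h2 : Nat.land (Nat.shiftRight x (Nat.mul 200 i))
      1606938044258990275541962092341162602522202993782792835301375
      = (x >>> (200 * i)) &&& (2 ^ 200 - 1) := by rw [h1]; rfl
  show Nat.land (Nat.shiftRight x (Nat.mul 200 i))
      1606938044258990275541962092341162602522202993782792835301375 = _
  rw [h2, Nat.and_two_pow_sub_one_eq_mod, Nat.shiftRight_eq_div_pow]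

theorem get_ge' (x : ℕ) (L : List ℕ) (i : ℕ) (h : 1024 ≤ i) :
    get (x :: L) i = get L (i - 1024) := by
  have hb : Nat.ble 1024 i = true := by rw [Nat.ble_eq]; exact h
  rw [get_cons', hb]; rfl

theorem st_GET : ST_GET := ⟨get_nil', get_lt', get_ge'⟩

theorem cov_cons' (c : ℕ) (L : List ℕ) (N : ℕ) :
    cov (c :: L) N = sel (Nat.ble 1024 N) (cov L (N - 1024))
      (sel (Nat.beq (Nat.shiftRight c (Nat.mul 200 N)) 0) (cov L 0) false) := rfl

theorem st_COV (hg : ST_GET) : ST_COV := by
  obtain ⟨g0, g1, g2⟩ := hg
  intro L
  induction L with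
  | nil => intro N _ idx _; exact g0 idx
  | cons c L ih =>
    intro N hN idx hidx
    rw [cov_cons'] at hN
    by_cases hb : 1024 ≤ N
    · have hb' : Nat.ble 1024 N = true := by rw [Nat.ble_eq]; exact hb
      rw [hb'] at hN
      have hN' : cov L (N - 1024) = true := hN
      rw [g2 c L idx (by omega)]
      exact ih _ hN' _ (by omega)
    · have hb' : Nat.ble 1024 N = false := by
        rw [← Bool.not_eq_true, Nat.ble_eq]; exact hb
      rw [hb'] at hN
      have hN' : sel (Nat.beq (Nat.shiftRight c (Nat.mul 200 N)) 0) (cov L 0) false = true := hN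
      cases hc : Nat.beq (Nat.shiftRight c (Nat.mul 200 N)) 0 with
      | false => rw [hc] at hN'; exact absurd hN' (by simp [sel])
      | true =>
        rw [hc] at hN'
        have h0 : cov L 0 = true := hN'
        have hz : Nat.shiftRight c (Nat.mul 200 N) = 0 := Nat.eq_of_beq_eq_true hc
        have hz' : c / 2 ^ (200 * N) = 0 := by
          have : c >>> (200 * N) = 0 := hz
          rwa [Nat.shiftRight_eq_div_pow] at this
        by_cases hi : idx < 1024
        · rw [g1 c L idx hi]
          have hlt : c < 2 ^ (200 * N) := by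
            rcases Nat.div_eq_zero_iff.mp hz' with h | h
            · exact absurd h (by positivity)
            · exact h
          have hle : 2 ^ (200 * N) ≤ 2 ^ (200 * idx) :=
            Nat.pow_le_pow_right (by norm_num) (by omega)
          rw [Nat.div_eq_of_lt (lt_of_lt_of_le hlt hle)]
          rfl
        · rw [g2 c L idx (by omega)]
          exact ih 0 h0 _ (Nat.zero_le _)

end RTwo
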