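import Pool.Agent.Helper45.RT.Stmts3

/-!
Row GO1.
-/

set_option autoImplicit false

namespace RTwo

theorem sel_or {b x y : Bool} (h : sel b x y = true) : x = true ∨ y = true := by
  cases b with
  | false => exact Or.inr h
  | true => exact Or.inl h

/-- the continuation is used -/
def GUse (ih : ℕ → ℕ → ℕ → ℕ → ℕ → ℕ → ℕ → ℕ → (ℕ → Bool) → Bool) : Prop :=
  ∀ (cur und ra rb u mz b s : ℕ) (K : ℕ → Bool),
    ih cur und ra rb u mz b s K = true → ∃ s', K s' = true

theorem colC_use (T : List ℕ) (ih : ℕ → ℕ → ℕ → ℕ → ℕ → ℕ → ℕ → ℕ → (ℕ → Bool) → Bool)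
    (hih : GUse ih) (cur und ra rb u mz b s m rc : ℕ) (K : ℕ → Bool)
    (h : colC T ih cur und ra rb u mz b s m rc K = true) : ∃ s', K s' = true := by
  rcases sel_or h with h | h
  · rcases sel_or h with h | h
    · exact ⟨s, h⟩
    · rcases sel_or h with h | h
      · exact ⟨s, h⟩
      · exact hih _ _ _ _ _ _ _ _ _ h
  · rcases sel_or h with h | h
    · rcases sel_or h with h | h
      · exact absurd h (by simp)
      · exact ⟨s, h⟩
    · exact absurd h (by simp)

theorem zeroC_use (bq : ℕ) (ih : ℕ → ℕ → ℕ → ℕ → ℕ → ℕ → ℕ → ℕ → (ℕ → Bool) → Bool)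
    (hih : GUse ih) (cur und ra rb u mz b d s : ℕ) (K : ℕ → Bool)
    (h : zeroC bq ih cur und ra rb u mz b d s K = true) : ∃ s', K s' = true := by
  rcases sel_or h with h | h
  · exact ⟨s, h⟩
  · rcases sel_or h with h | h
    · rcases sel_or h with h | h
      · exact hih _ _ _ _ _ _ _ _ _ h
      · exact ⟨s, h⟩
    · exact ⟨s, h⟩

theorem go_succ' (k bq D : ℕ) (T L : List ℕ) (fuel cur und ra rb u mz b s : ℕ) (K : ℕ → Bool) :
    go k bq D T L (fuel + 1) cur und ra rb u mz b s K =
      sel (Nat.beq u 0)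
        (sel (acceptC k L cur s) (K (Nat.shiftRight s 20)) false)
        (nodeC k bq D T (go k bq D T L fuel) cur und ra rb u mz b (Nat.shiftRight s 36)
          (Nat.mod s 16) (Nat.mod (Nat.shiftRight s 4) 65536)
          (Nat.mod (Nat.shiftRight s 20) 65536) K) := rfl

theorem go_use (k bq D : ℕ) (T L : List ℕ) : ∀ fuel : ℕ, GUse (go k bq D T L fuel) := by
  intro fuel
  induction fuel with
  | zero =>
    intro cur und ra rb u mz b s K h
    exact absurd h (by simp [go])
  | succ fuel ih =>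
    intro cur und ra rb u mz b s K h
    rw [go_succ'] at h
    rcases sel_or h with h | h
    · rcases sel_or h with h | h
      · exact ⟨_, h⟩
      · exact absurd h (by simp)
    · rcases sel_or h with h | h
      · obtain ⟨s1, h1⟩ := colC_use T _ ih _ _ _ _ _ _ _ _ _ _ _ h
        obtain ⟨s2, h2⟩ := colC_use T _ ih _ _ _ _ _ _ _ _ _ _ _ h1
        exact zeroC_use bq _ ih _ _ _ _ _ _ _ _ _ _ h2
      · exact absurd h (by simp)

theorem st_GO1 : ST_GO1 := by
  intro k bq D T L fuel cur und ra rb u mz b s K h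
  exact go_use k bq D T L fuel cur und ra rb u mz b s K h

end RTwo
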