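import Pool.Agent.Helper45.RT.Stmts3

/-!
Row INV.
-/

set_option autoImplicit false

namespace RTwo

theorem addbit (x p i : ℕ) (h : x.testBit p = false) :
    (x + 2 ^ p).testBit i = (x.testBit i || decide (i = p)) := by
  have hx : x = 2 ^ (p + 1) * (x / 2 ^ (p + 1)) + x % 2 ^ (p + 1) := (Nat.div_add_mod _ _).symm
  have hb : x % 2 ^ (p + 1) < 2 ^ (p + 1) := Nat.mod_lt _ (by positivity)
  have hbp : (x % 2 ^ (p + 1)).testBit p = false := by
    rw [Nat.testBit_mod_two_pow, h]; simp
  have hb2 : x % 2 ^ (p + 1) < 2 ^ p := by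
    by_contra hc
    have hc' : 2 ^ p ≤ x % 2 ^ (p + 1) := by omega
    have h2 : x % 2 ^ (p + 1) - 2 ^ p < 2 ^ p := by
      have : 2 ^ (p + 1) = 2 ^ p + 2 ^ p := by ring
      omega
    have h3 : x % 2 ^ (p + 1) = 2 ^ p + (x % 2 ^ (p + 1) - 2 ^ p) := by omega
    rw [h3, Nat.testBit_two_pow_add_eq, Nat.testBit_lt_two_pow h2] at hbp
    simp at hbp
  have hx2 : x + 2 ^ p = 2 ^ (p + 1) * (x / 2 ^ (p + 1)) + (2 ^ p + x % 2 ^ (p + 1)) := by
    omega
  have hb3 : 2 ^ p + x % 2 ^ (p + 1) < 2 ^ (p + 1) := by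
    have : 2 ^ (p + 1) = 2 ^ p + 2 ^ p := by ring
    omega
  rw [hx2, Nat.testBit_two_pow_mul_add _ hb3]
  conv_rhs => rw [hx, Nat.testBit_two_pow_mul_add _ hb]
  by_cases hi : i < p + 1
  · rw [if_pos hi, if_pos hi]
    rcases Nat.lt_or_ge i p with h1 | h1
    · rw [Nat.testBit_two_pow_add_gt h1]
      simp [Nat.ne_of_lt h1]
    · have : i = p := by omega
      subst this
      rw [Nat.testBit_two_pow_add_eq, hbp]
      simp
  · rw [if_neg hi, if_neg hi]
    have : i ≠ p := by omega
    simp [this]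

theorem subbit (x p : ℕ) (h : x.testBit p = true) :
    2 ^ p ≤ x ∧ ∀ i, (x - 2 ^ p).testBit i = (x.testBit i && decide (i ≠ p)) := by
  have hge : 2 ^ p ≤ x := Nat.ge_two_pow_of_testBit h
  refine ⟨hge, ?_⟩
  have hx : x = (x - 2 ^ p) + 2 ^ p := by omega
  have hw : (x - 2 ^ p).testBit p = false := by
    have h1 : x = 2 ^ p + (x - 2 ^ p) := by omega
    rw [h1, Nat.testBit_two_pow_add_eq] at h
    simpa using h
  intro i
  have h2 := addbit (x - 2 ^ p) p i hw
  rw [← hx] at h2
  rw [h2]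
  by_cases hi : i = p
  · subst hi; rw [hw]; simp
  · simp [hi]

theorem st_INV : ST_INV := by
  intro k c cur und j hk hc hI hj hb hu
  obtain ⟨hge, hsub⟩ := subbit und j hb
  obtain ⟨I1, I2, I3, I4⟩ := hI
  have hlt : und - 2 ^ j < 2 ^ k := lt_of_le_of_lt (Nat.sub_le _ _) hu
  -- row `k` with the vertex `j` decided
  have row : ∀ (cur' : ℕ), (∀ t, (∀ e, e < 2 → t ≠ 20 * k + 2 * j + e) →
      cur'.testBit t = cur.testBit t) →
      (∀ e, e < 2 → cur'.testBit (20 * k + 2 * j + e) = (c k j).testBit e) →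
      Inv k c cur' (und - 2 ^ j) := by
    intro cur' h1 h2
    refine ⟨?_, ?_, ?_, ?_⟩
    · intro a b e ha hb' he
      rw [h1 _ (by intro e' he'; omega)]
      exact I1 a b e ha hb' he
    · intro b e hb' he
      rw [hsub b]
      by_cases hbj : b = j
      · subst hbj
        rw [h2 e he]; simp
      · rw [h1 _ (by intro e' he'; omega), I2 b e hb' he]
        simp [hbj]
    · intro a b e ha hb' hkb he
      rw [h1 _ (by intro e' he'; omega)]
      exact I3 a b e ha hb' hkb he
    · intro t ht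
      rw [h1 _ (by intro e' he'; omega)]
      exact I4 t ht
  have h0 : ∀ e, e < 2 → cur.testBit (20 * k + 2 * j + e) = false := by
    intro e he
    rw [I2 j e hj he, hb]; simp
  refine ⟨?_, ?_, ?_, hlt, hsub⟩
  · intro hc0
    apply row cur (fun t _ => rfl)
    intro e he
    rw [h0 e he, hc0]; simp
  · intro hc1
    have hs : Nat.shiftLeft 1 (20 * k + 2 * j) = 2 ^ (20 * k + 2 * j) := by
      show 1 <<< (20 * k + 2 * j) = _
      rw [Nat.shiftLeft_eq, one_mul]
    rw [hs]
    have hz : cur.testBit (20 * k + 2 * j) = false := h0 0 (by norm_num)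
    apply row
    · intro t ht
      rw [addbit _ _ _ hz]
      have := ht 0 (by norm_num)
      rw [add_zero] at this
      simp [this]
    · intro e he
      rw [addbit _ _ _ hz, h0 e he, hc1]
      have e2 : e = 0 ∨ e = 1 := by omega
      rcases e2 with rfl | rfl
      · simp
      · simp; decide
  · intro hc2
    have hs : Nat.shiftLeft 2 (20 * k + 2 * j) = 2 ^ (20 * k + 2 * j + 1) := by
      show 2 <<< (20 * k + 2 * j) = _
      rw [Nat.shiftLeft_eq, pow_succ]; ring
    rw [hs]
    have hz : cur.testBit (20 * k + 2 * j + 1) = false := h0 1 (by norm_num)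
    apply row
    · intro t ht
      rw [addbit _ _ _ hz]
      have := ht 1 (by norm_num)
      simp [this]
    · intro e he
      rw [addbit _ _ _ hz, h0 e he, hc2]
      have e2 : e = 0 ∨ e = 1 := by omega
      rcases e2 with rfl | rfl
      · simp
      · simp; decide

end RTwo
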