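import Pool.Agent.Helper45.RT.Stmts3

/-!
Rows CHK, LIB and TAB.
-/

set_option autoImplicit false

namespace RTwo

theorem sel_true_left {b x : Bool} (h : sel b x false = true) : b = true ∧ x = true := by
  cases b with
  | false => exact absurd h (by simp [sel])
  | true => exact ⟨rfl, h⟩

theorem chk_cons' (k t : ℕ) (T L P : List ℕ) (s : ℕ) (S : List ℕ) (i : ℕ) :
    chk k t T L P (s :: S) i =
      sel (chkBase k t T L (get P i) s) (chk k t T L P S (i + 1)) false := rfl

theorem st_CHK : ST_CHK := by
  intro k t T L P S
  induction S with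
  | nil => intro i _ j hj; exact absurd hj (by simp)
  | cons s S ih =>
    intro i h j hj
    rw [chk_cons'] at h
    obtain ⟨h1, h2⟩ := sel_true_left h
    cases j with
    | zero => exact ⟨s, h1⟩
    | succ j =>
      obtain ⟨s', hs'⟩ := ih (i + 1) h2 j (by simpa using hj)
      refine ⟨s', ?_⟩
      rw [show i + (j + 1) = i + 1 + j by ring]
      exact hs'

theorem libOK_cons' (C : IC) (Lib : List ℕ) (s : ℕ) (S : List ℕ) (i : ℕ) :
    libOK C Lib (s :: S) i = sel (libE C (get Lib i) s) (libOK C Lib S (i + 1)) false := rfl

theorem st_LIB : ST_LIB := by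
  intro C Lib S
  induction S with
  | nil => intro i _ j hj; exact absurd hj (by simp)
  | cons s S ih =>
    intro i h j hj
    rw [libOK_cons'] at h
    obtain ⟨h1, h2⟩ := sel_true_left h
    cases j with
    | zero => exact ⟨s, h1⟩
    | succ j =>
      obtain ⟨s', hs'⟩ := ih (i + 1) h2 j (by simpa using hj)
      refine ⟨s', ?_⟩
      rw [show i + (j + 1) = i + 1 + j by ring]
      exact hs'

theorem tabOK_succ' (n c : ℕ) (Lib : List ℕ) (f i s : ℕ) :
    tabOK n c Lib (f + 1) i s =
      sel (Nat.beq (Nat.land (Nat.shiftRight c (Nat.mul 200 i))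
          1606938044258990275541962092341162602522202993782792835301375) 0)
        (tabOK n c Lib f (i + 1) (Nat.shiftRight s 32))
        (sel (entOK n Lib (Nat.land (Nat.shiftRight c (Nat.mul 200 i))
          1606938044258990275541962092341162602522202993782792835301375) s)
          (tabOK n c Lib f (i + 1) (Nat.shiftRight s 32)) false) := rfl

theorem land_mask' (c i : ℕ) :
    Nat.land (Nat.shiftRight c (Nat.mul 200 i))
      1606938044258990275541962092341162602522202993782792835301375
      = c / 2 ^ (200 * i) % 2 ^ 200 := by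
  have h1 : (1606938044258990275541962092341162602522202993782792835301375 : ℕ) = 2 ^ 200 - 1 := by
    norm_num
  have h2 : Nat.land (Nat.shiftRight c (Nat.mul 200 i))
      1606938044258990275541962092341162602522202993782792835301375
      = (c >>> (200 * i)) &&& (2 ^ 200 - 1) := by rw [h1]; rfl
  rw [h2, Nat.and_two_pow_sub_one_eq_mod, Nat.shiftRight_eq_div_pow]

theorem st_TAB : ST_TAB := by
  intro n c Lib f
  induction f with
  | zero => intro i s _ j hj; exact absurd hj (by simp)
  | succ f ih =>
    intro i s h j hj hne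
    rw [tabOK_succ', land_mask'] at h
    have key : (tabOK n c Lib f (i + 1) (Nat.shiftRight s 32) = true) ∧
        (c / 2 ^ (200 * i) % 2 ^ 200 ≠ 0 →
          entOK n Lib (c / 2 ^ (200 * i) % 2 ^ 200) s = true) := by
      cases hb : Nat.beq (c / 2 ^ (200 * i) % 2 ^ 200) 0 with
      | true =>
        rw [hb] at h
        exact ⟨h, fun h0 => absurd (Nat.eq_of_beq_eq_true hb) h0⟩
      | false =>
        rw [hb] at h
        have h' : sel (entOK n Lib (c / 2 ^ (200 * i) % 2 ^ 200) s)
          (tabOK n c Lib f (i + 1) (Nat.shiftRight s 32)) false = true := h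
        obtain ⟨h1, h2⟩ := sel_true_left h'
        exact ⟨h2, fun _ => h1⟩
    cases j with
    | zero => exact ⟨s, key.2 hne⟩
    | succ j =>
      rw [show i + (j + 1) = i + 1 + j by ring] at hne ⊢
      exact ih (i + 1) _ key.1 j (by omega) hne

end RTwo
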