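import Pool.Agent.Helper45.RT.Stmts3

/-!
Rows SCAN and TWO.
-/

set_option autoImplicit false

namespace RTwo

open Finset

theorem scan_succ' (n x : ℕ) (L : List ℕ) (f i : ℕ) :
    scan n x L (f + 1) i = sel (Nat.ble x (sumA (get L i) n))
      (sel (Nat.ble x (sumB (get L i) n)) false (scan n x L f (i + 1))) (scan n x L f (i + 1)) :=
  rfl

theorem scan_spec (n x : ℕ) (L : List ℕ) : ∀ (f i : ℕ), scan n x L f i = true →
    ∀ j, j < f → ¬ (x ≤ sumA (get L (i + j)) n ∧ x ≤ sumB (get L (i + j)) n) := by
  intro f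
  induction f with
  | zero => intro i _ j hj; exact absurd hj (by simp)
  | succ f ih =>
    intro i h j hj
    rw [scan_succ'] at h
    have key : scan n x L f (i + 1) = true ∧
        ¬ (x ≤ sumA (get L i) n ∧ x ≤ sumB (get L i) n) := by
      cases ha : Nat.ble x (sumA (get L i) n) with
      | false =>
        rw [ha] at h
        refine ⟨h, fun hh => ?_⟩
        rw [Nat.ble_eq.mpr hh.1] at ha
        exact absurd ha (by simp)
      | true =>
        rw [ha] at h
        have h' : sel (Nat.ble x (sumB (get L i) n)) false (scan n x L f (i + 1)) = true := h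
        cases hb : Nat.ble x (sumB (get L i) n) with
        | false =>
          rw [hb] at h'
          refine ⟨h', fun hh => ?_⟩
          rw [Nat.ble_eq.mpr hh.2] at hb
          exact absurd hb (by simp)
        | true =>
          rw [hb] at h'
          exact absurd h' (by simp [sel])
    cases j with
    | zero => exact key.2
    | succ j =>
      rw [show i + (j + 1) = i + 1 + j by ring]
      exact ih (i + 1) key.1 j (by omega)

theorem rowA_zero (v : ℕ) : rowA 0 v = 0 := by
  have h : Nat.shiftRight 0 (Nat.mul 20 v) = 0 := by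
    show 0 >>> (20 * v) = 0
    simp
  unfold rowA
  rw [h]
  rfl

theorem rowB_zero (v : ℕ) : rowB 0 v = 0 := by
  have h : Nat.shiftRight 0 (Nat.succ (Nat.mul 20 v)) = 0 := by
    show 0 >>> (20 * v + 1) = 0
    simp
  unfold rowB
  rw [h]
  rfl

theorem sumA_zero (k : ℕ) : sumA 0 k = 0 := by
  induction k with
  | zero => rfl
  | succ k ih =>
    show Nat.add (rowA 0 k) (sumA 0 k) = 0
    rw [rowA_zero, ih]

theorem sumB_zero (k : ℕ) : sumB 0 k = 0 := by
  induction k with
  | zero => rfl
  | succ k ih =>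
    show Nat.add (rowB 0 k) (sumB 0 k) = 0
    rw [rowB_zero, ih]

theorem st_SCAN (hD : ST_DEG) (hC : ST_DCOL) (_hG : ST_GET) : ST_SCAN := by
  intro n x N L hn hn10 hs hz c hc ht hin
  obtain ⟨idx, r, f, hr, he⟩ := hin
  obtain ⟨hsym, hA, hB, _⟩ := hC n r f c hn hc
  obtain ⟨_, hsA, hsB, _⟩ := hD n (dcol n r f c) hn hn10 hsym
  rw [← he, hA] at hsA
  rw [← he, hB] at hsB
  by_cases hi : idx < N
  · have := scan_spec n x L N 0 hs idx hi
    rw [Nat.zero_add, hsA, hsB] at this
    exact this
  · rw [hz idx (by omega), sumA_zero] at hsA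
    rw [hz idx (by omega), sumB_zero] at hsB
    unfold tot at ht
    omega

theorem st_TWO : ST_TWO := by
  intro c hc ht
  have h01 := hc 0 1 (by norm_num) (by norm_num)
  have h10 := hc 1 0 (by norm_num) (by norm_num)
  have hv : ∀ v, nA 2 c v + nB 2 c v = (if c v 0 = 1 then 1 else 0) + (if c v 1 = 1 then 1 else 0)
      + ((if c v 0 = 2 then 1 else 0) + (if c v 1 = 2 then 1 else 0)) := by
    intro v
    unfold nA nB
    rw [card_filter, card_filter, sum_range_succ, sum_range_succ, sum_range_succ, sum_range_succ]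
    simp
  have hcode : ∀ d : Col, code 2 d = d 0 0 + d 0 1 * 4 + (d 1 0 * 2 ^ 20 + d 1 1 * 2 ^ 22) := by
    intro d
    unfold code
    rw [sum_range_succ, sum_range_one, sum_range_succ, sum_range_one, sum_range_succ, sum_range_one]
    norm_num
  have hne : c 0 1 ≠ 0 := by
    intro h0
    have e0 : c 0 0 = 0 := h01.2.1
    have e1 : c 1 1 = 0 := h10.2.1
    have e2 : c 1 0 = 0 := by rw [← h01.1, h0]
    have : tot 2 c = 0 := by
      have hv0 := hv 0
      have hv1 := hv 1
      rw [e0, h0] at hv0
      rw [e2, e1] at hv1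
      simp at hv0 hv1
      unfold tot totA totB
      rw [sum_range_succ, sum_range_one, sum_range_succ, sum_range_one]
      omega
    omega
  have hle := h01.2.2
  have hcc : c 0 1 = 1 ∨ c 0 1 = 2 := by omega
  have e : code 2 (dcol 2 0 0 c) = c 0 1 * 4 + c 0 1 * 2 ^ 20 := by
    rw [hcode]
    have a0 : dsg 2 0 0 0 = 0 := rfl
    have a1 : dsg 2 0 0 1 = 1 := rfl
    simp only [dcol, a0, a1]
    rw [h01.2.1, h10.2.1, ← h01.1]
    ring
  rcases hcc with h | h
  · refine ⟨0, 0, 0, by norm_num, ?_⟩
    rw [e, h]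
    decide
  · refine ⟨1, 0, 0, by norm_num, ?_⟩
    rw [e, h]
    decide

end RTwo
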