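import Pool.Agent.Helper45.RT.Stmts3

/-!
Row TABL.
-/

set_option autoImplicit false

namespace RTwo

theorem st_TABL (hT : ST_TAB) (hE : ST_ENT) (hG : ST_GET) : ST_TABL := by
  obtain ⟨g0, g1, g2⟩ := hG
  intro I n Lib T hn2 hn10 hLib
  induction T with
  | nil => intro _ m hm; exact absurd (g0 m) hm
  | cons c T ih =>
    intro hall m hm
    by_cases h : m < 1024
    · rw [g1 c T m h] at hm ⊢
      obtain ⟨s, hs⟩ := hall c (by simp)
      have hm' : c / 2 ^ (200 * (0 + m)) % 2 ^ 200 ≠ 0 := by rwa [Nat.zero_add]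
      obtain ⟨s', hs'⟩ := hT n c Lib 1024 0 s hs m h hm'
      rw [Nat.zero_add] at hs'
      exact hE I n Lib _ s' hn2 hn10 hLib hs'
    · rw [g2 c T m (by omega)] at hm ⊢
      exact ih (fun c' hc' => hall c' (by simp [hc'])) _ hm

end RTwo
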