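import Pool.Agent.Helper45.RT.Stmts3

/-!
Rows PACK, PK and PKC.
-/

set_option autoImplicit false

namespace RTwo

open Finset

theorem digits_unique (B : ℕ) (hB : 0 < B) : ∀ (n : ℕ) (f g : ℕ → ℕ),
    (∀ t, t < n → f t < B) → (∀ t, t < n → g t < B) →
    ∑ t ∈ range n, f t * B ^ t = ∑ t ∈ range n, g t * B ^ t → ∀ t, t < n → f t = g t := by
  intro n
  induction n with
  | zero => intro f g _ _ _ t ht; exact absurd ht (by omega)
  | succ n ih =>
    intro f g hf hg h
    rw [sum_range_succ', sum_range_succ'] at h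
    have hS : ∀ u : ℕ → ℕ, ∑ t ∈ range n, u (t + 1) * B ^ (t + 1)
        = B * ∑ t ∈ range n, u (t + 1) * B ^ t := by
      intro u
      rw [mul_sum]
      exact sum_congr rfl fun t _ => by ring
    rw [hS, hS] at h
    simp only [pow_zero, mul_one] at h
    have h0 : f 0 = g 0 := by
      have h1 := congrArg (· % B) h
      simp only [Nat.mul_add_mod] at h1
      rwa [Nat.mod_eq_of_lt (hf 0 (by omega)), Nat.mod_eq_of_lt (hg 0 (by omega))] at h1
    rw [h0] at h
    have h2 : ∑ t ∈ range n, f (t + 1) * B ^ t = ∑ t ∈ range n, g (t + 1) * B ^ t :=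
      Nat.eq_of_mul_eq_mul_left hB (Nat.add_right_cancel h)
    have h3 := ih (fun t => f (t + 1)) (fun t => g (t + 1)) (fun t ht => hf (t + 1) (by omega))
      (fun t ht => hg (t + 1) (by omega)) h2
    intro t ht
    cases t with
    | zero => exact h0
    | succ t => exact h3 t (by omega)

theorem pack_succ (f : ℕ → ℕ) :
    pack f = ∑ t ∈ range 102, f (t + 1) * 2 ^ (96 * (t + 1)) + f 0 := by
  show ∑ t ∈ range (102 + 1), f t * 2 ^ (96 * t) = _
  rw [sum_range_succ']
  simp

theorem st_PACK : ST_PACK := by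
  intro f g e hf hg he h
  have hN : NF = 103 := rfl
  have key := digits_unique (2 ^ 96) (by positivity) 103
    (fun t => if t = 0 then f 0 + e else f t) g
    (by
      intro t ht
      show (if t = 0 then f 0 + e else f t) < 2 ^ 96
      split_ifs with h0
      · have := hf 0 (by rw [hN]; norm_num)
        have h2 : (2 : ℕ) ^ 96 = 2 ^ 95 + 2 ^ 95 := by norm_num
        omega
      · have := hf t (by rw [hN]; exact ht)
        have h2 : (2 : ℕ) ^ 96 = 2 ^ 95 + 2 ^ 95 := by norm_num
        omega)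
    (by
      intro t ht
      have := hg t (by rw [hN]; exact ht)
      have h2 : (2 : ℕ) ^ 96 = 2 ^ 95 + 2 ^ 95 := by norm_num
      omega)
    (by
      have e1 : ∑ t ∈ range 103, g t * (2 ^ 96) ^ t = pack g := by
        show _ = ∑ t ∈ range 103, g t * 2 ^ (96 * t)
        exact sum_congr rfl fun t _ => by rw [pow_mul]
      rw [e1, ← h, pack_succ f]
      rw [show (103 : ℕ) = 102 + 1 from rfl, sum_range_succ']
      have e2 : ∑ t ∈ range 102, (if t + 1 = 0 then f 0 + e else f (t + 1)) * (2 ^ 96) ^ (t + 1)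
          = ∑ t ∈ range 102, f (t + 1) * 2 ^ (96 * (t + 1)) :=
        sum_congr rfl fun t _ => by rw [if_neg (by omega), pow_mul]
      rw [e2]
      simp only [if_true, pow_zero, mul_one]
      ring)
  refine ⟨?_, ?_⟩
  · have := key 0 (by norm_num)
    simpa using this
  · intro t ht0 ht
    have := key t (by rw [← hN]; exact ht)
    simpa [Nat.pos_iff_ne_zero.mp ht0] using this

theorem Pk_single (D : ℕ) (α β : ℝ) (φ : ℕ → ℕ → ℝ) (l t : ℕ) (ht : t < NF) :
    Pk D α β φ l (l * 2 ^ (96 * t)) (l * val D α β φ t) := by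
  refine ⟨fun s => if s = t then l else 0, ?_, ?_, ?_⟩
  · intro s _
    show (if s = t then l else 0) ≤ l
    split_ifs <;> omega
  · unfold pack
    rw [sum_eq_single t]
    · simp
    · intro s _ hs
      simp [hs]
    · intro h
      exact absurd (mem_range.mpr ht) h
  · rw [sum_eq_single t]
    · simp
    · intro s _ hs
      simp [hs]
    · intro h
      exact absurd (mem_range.mpr ht) h

theorem st_PK : ST_PK := by
  intro D α β φ
  refine ⟨?_, ?_, ?_, ?_, ?_, ?_, ?_⟩
  · rintro B X x B' X' x' ⟨f, hf, hX, hx⟩ ⟨g, hg, hX', hx'⟩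
    refine ⟨fun t => f t + g t, fun t ht => Nat.add_le_add (hf t ht) (hg t ht), ?_, ?_⟩
    · rw [hX, hX']
      unfold pack
      rw [← sum_add_distrib]
      exact sum_congr rfl fun t _ => by ring
    · rw [hx, hx', ← sum_add_distrib]
      exact sum_congr rfl fun t _ => by push_cast; ring
  · rintro B X x l ⟨f, hf, hX, hx⟩
    refine ⟨fun t => l * f t, fun t ht => Nat.mul_le_mul_left l (hf t ht), ?_, ?_⟩
    · rw [hX]
      unfold pack
      rw [mul_sum]
      exact sum_congr rfl fun t _ => by ring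
    · rw [hx, mul_sum]
      exact sum_congr rfl fun t _ => by push_cast; ring
  · rintro B X x B' ⟨f, hf, hX, hx⟩ hB
    exact ⟨f, fun t ht => le_trans (hf t ht) hB, hX, hx⟩
  · intro l
    have h := Pk_single D α β φ l 0 (by decide)
    have e1 : l * 2 ^ (96 * 0) = l := by simp
    have e2 : (l : ℝ) * val D α β φ 0 = l / D := by
      simp [val, div_eq_mul_inv]
    rwa [e1, e2] at h
  · have h := Pk_single D α β φ 1 1 (by decide)
    have e1 : 1 * 2 ^ (96 * 1) = 79228162514264337593543950336 := by norm_num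
    have e2 : ((1 : ℕ) : ℝ) * val D α β φ 1 = α := by
      simp [val]
    rwa [e1, e2] at h
  · have h := Pk_single D α β φ 1 2 (by decide)
    have e1 : 1 * 2 ^ (96 * 2) = 6277101735386680763835789423207666416102355444464034512896 := by
      norm_num
    have e2 : ((1 : ℕ) : ℝ) * val D α β φ 2 = β := by
      simp [val]
    rwa [e1, e2] at h
  · intro i j hi hj
    have hN : NF = 103 := rfl
    have h := Pk_single D α β φ 1 (10 * i + j + 3) (by rw [hN]; omega)
    have e1 : 1 * 2 ^ (96 * (10 * i + j + 3)) = ph i j := by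
      show _ = 1 <<< (960 * i + 96 * j + 288)
      rw [Nat.shiftLeft_eq]
      congr 2
      ring
    have e2 : ((1 : ℕ) : ℝ) * val D α β φ (10 * i + j + 3) = φ i j := by
      have h1 : (10 * i + j + 3 - 3) / 10 = i := by omega
      have h2 : (10 * i + j + 3 - 3) % 10 = j := by omega
      simp only [val, if_neg (show ¬ (10 * i + j + 3 = 0) by omega),
        if_neg (show ¬ (10 * i + j + 3 = 1) by omega),
        if_neg (show ¬ (10 * i + j + 3 = 2) by omega), h1, h2]
      simp
    rwa [e1, e2] at h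

theorem st_PKC (hP : ST_PACK) : ST_PKC := by
  rintro D α β φ B P N x y hD hB ⟨f, hf, hX, hx⟩ ⟨g, hg, hY, hy⟩ hPN hlt
  have hlt2 : N - P < 2 ^ 95 := lt_trans hlt (by norm_num)
  obtain ⟨h0, h1⟩ := hP f g (N - P) (fun t ht => lt_of_le_of_lt (hf t ht) hB)
    (fun t ht => lt_of_le_of_lt (hg t ht) hB) hlt2 (by rw [← hX, ← hY]; omega)
  rw [hx, hy]
  show ∑ t ∈ range (102 + 1), (g t : ℝ) * val D α β φ t
    = ∑ t ∈ range (102 + 1), (f t : ℝ) * val D α β φ t + ((N - P : ℕ) : ℝ) / D
  rw [sum_range_succ' (fun t => (g t : ℝ) * val D α β φ t) 102,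
    sum_range_succ' (fun t => (f t : ℝ) * val D α β φ t) 102, ← h0]
  have e1 : ∑ t ∈ range 102, (g (t + 1) : ℝ) * val D α β φ (t + 1)
      = ∑ t ∈ range 102, (f (t + 1) : ℝ) * val D α β φ (t + 1) :=
    sum_congr rfl fun t ht => by
      rw [h1 (t + 1) (by omega) (by
        have := mem_range.mp ht
        show t + 1 < 103
        omega)]
  rw [e1]
  have e2 : val D α β φ 0 = 1 / D := by simp [val]
  rw [e2]
  push_cast
  ring

end RTwo
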